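import Pool.Agent.H39.HW.SStm

set_option autoImplicit false
open Classical Finset

namespace Pool.Agent.H61.HW

open Pool.Agent.H39.HW Pool.Agent.H39.HW.Sc

theorem st_lo (x : Prm) (i : ℕ) (hi : i ≤ x.b0) : x.st i = i * x.w := by
  unfold Prm.st
  rw [if_pos hi]

theorem st_mid (x : Prm) (i : ℕ) (hi : i ≤ x.M) : x.st (x.b0 + i) = x.b0 * x.w + i * x.v := by
  unfold Prm.st
  by_cases h0 : i = 0
  · subst h0
    rw [if_pos (by omega)]
    simp
  · rw [if_neg (by omega), if_pos (by unfold Prm.b1 Prm.b0; omega)]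
    congr 2
    omega

theorem st_top (x : Prm) (i : ℕ) (hi : i < x.K + x.J) :
    x.st (x.b1 + i) = x.b0 * x.w + x.M * x.v + i * x.w := by
  by_cases h0 : i = 0
  · subst h0
    have e : x.b1 + 0 = x.b0 + x.M := by unfold Prm.b1 Prm.b0; omega
    rw [e, st_mid x x.M le_rfl]
    simp
  · unfold Prm.st
    rw [if_neg (by unfold Prm.b1 Prm.b0; omega), if_neg (by omega),
      if_pos (by unfold Prm.b1 Prm.B; omega)]
    congr 2
    omega

theorem st_end (x : Prm) (i : ℕ) (hi : x.B ≤ i) (hK : 1 ≤ x.K) : x.st i = x.D + 2 * x.p := by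
  unfold Prm.B at hi
  unfold Prm.st
  rw [if_neg (by unfold Prm.b0; omega), if_neg (by unfold Prm.b1; omega),
    if_neg (by unfold Prm.B; omega)]

theorem K8 {x : Prm} (h : Par x) : 8 ≤ x.K := by
  have := h.KJ
  have := h.J1
  omega

theorem ln_lo {x : Prm} (β : ℕ) (hβ : β < x.b0) : x.st (β + 1) = x.st β + x.w := by
  rw [st_lo x (β + 1) (by omega), st_lo x β (by omega)]
  ring

theorem ln_mid {x : Prm} (β : ℕ) (h0 : x.b0 ≤ β) (h1 : β < x.b1) :
    x.st (β + 1) = x.st β + x.v := by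
  obtain ⟨i, rfl⟩ : ∃ i, β = x.b0 + i := ⟨β - x.b0, by omega⟩
  have hi : i + 1 ≤ x.M := by unfold Prm.b1 Prm.b0 at h1; omega
  rw [show x.b0 + i + 1 = x.b0 + (i + 1) by ring, st_mid x (i + 1) hi, st_mid x i (by omega)]
  ring

theorem ln_top {x : Prm} (β : ℕ) (h0 : x.b1 ≤ β) (h1 : β + 1 < x.B) :
    x.st (β + 1) = x.st β + x.w := by
  obtain ⟨i, rfl⟩ : ∃ i, β = x.b1 + i := ⟨β - x.b1, by omega⟩
  have hi : i + 1 < x.K + x.J := by unfold Prm.b1 Prm.B at h1; omega
  rw [show x.b1 + i + 1 = x.b1 + (i + 1) by ring, st_top x (i + 1) hi, st_top x i (by omega)]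
  ring

theorem ln_end {x : Prm} (h : Par x) (β : ℕ) (h1 : β + 1 = x.B) :
    x.st β + x.w ≤ x.st (β + 1) ∧ x.st (β + 1) ≤ x.st β + x.w + x.M := by
  have hK := K8 h
  obtain ⟨i, rfl⟩ : ∃ i, β = x.b1 + i := ⟨β - x.b1, by unfold Prm.b1 at *; unfold Prm.B at h1; omega⟩
  have hi : i + 1 = x.K + x.J := by unfold Prm.b1 Prm.B at h1; omega
  rw [st_end x (x.b1 + i + 1) (by omega) (by omega), st_top x i (by omega)]
  have h2 := h.N1
  have h3 := h.N2
  have e1 : x.b0 * x.w + x.M * x.v + i * x.w + x.w = 2 * (x.K + x.J) * x.w + x.M * x.v := by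
    have e2 : i * x.w + x.w = (x.K + x.J) * x.w := by rw [← hi]; ring
    have e3 : x.b0 * x.w = (x.K + x.J) * x.w := by unfold Prm.b0; rfl
    rw [e3]
    linarith
  omega

theorem ln_ge {x : Prm} (h : Par x) (β : ℕ) (hβ : β < x.B) : x.st β + x.w ≤ x.st (β + 1) := by
  have hwv := h.wv
  by_cases h0 : β < x.b0
  · rw [ln_lo β h0]
  · by_cases h1 : β < x.b1
    · rw [ln_mid β (by omega) h1]
      omega
    · by_cases h2 : β + 1 < x.B
      · rw [ln_top β (by omega) h2]
      · exact (ln_end h β (by omega)).1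

theorem ln_le {x : Prm} (h : Par x) (β : ℕ) (hβ : β + 1 < x.B) : x.st (β + 1) ≤ x.st β + x.v := by
  have hwv := h.wv
  by_cases h0 : β < x.b0
  · rw [ln_lo β h0]
    omega
  · by_cases h1 : β < x.b1
    · rw [ln_mid β (by omega) h1]
    · rw [ln_top β (by omega) hβ]
      omega

theorem st_step {x : Prm} (h : Par x) (β : ℕ) : x.st β ≤ x.st (β + 1) := by
  by_cases hβ : β < x.B
  · exact le_trans (Nat.le_add_right _ _) (ln_ge h β hβ)
  · have := K8 h
    rw [st_end x β (by omega) (by omega), st_end x (β + 1) (by omega) (by omega)]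

theorem st_mono {x : Prm} (h : Par x) : Monotone x.st := monotone_nat_of_le_succ (st_step h)

theorem st_ge {x : Prm} (h : Par x) (i n : ℕ) (hn : i + n ≤ x.B) :
    x.st i + n * x.w ≤ x.st (i + n) := by
  induction n with
  | zero => simp
  | succ n ih =>
    have h1 := ih (by omega)
    have h2 := ln_ge h (i + n) (by omega)
    have e : (n + 1) * x.w = n * x.w + x.w := by ring
    rw [e, ← add_assoc i n 1]
    omega

theorem st_le {x : Prm} (h : Par x) (i n : ℕ) (hn : i + n < x.B) :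
    x.st (i + n) ≤ x.st i + n * x.v := by
  induction n with
  | zero => simp
  | succ n ih =>
    have h1 := ih (by omega)
    have h2 := ln_le h (i + n) (by omega)
    have e : (n + 1) * x.v = n * x.v + x.v := by ring
    rw [e, ← add_assoc i n 1]
    omega

theorem st_K {x : Prm} (h : Par x) (i : ℕ) (hi : i + x.K ≤ x.B) :
    x.st i + x.p ≤ x.st (i + x.K) :=
  le_trans (Nat.add_le_add_left h.pK _) (st_ge h i x.K hi)

theorem t_BLK : S_BLK := by
  intro x h
  have hK := K8 h
  refine ⟨?_, ?_, st_step h, fun i hi => st_K h i hi, ?_, ?_, ?_, ?_⟩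
  · rw [st_lo x 0 (Nat.zero_le _), Nat.zero_mul]
  · exact st_end x x.B le_rfl (by omega)
  · intro β hβ
    unfold ln
    rw [ln_lo β hβ]
    omega
  · intro β h0 h1
    unfold ln
    rw [ln_mid β h0 h1]
    omega
  · intro β h0 h1
    unfold ln
    rw [ln_top β h0 h1]
    omega
  · intro β h1
    unfold ln
    have := ln_end h β h1
    omega

end Pool.Agent.H61.HW
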