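import Pool.Agent.H65.HW.GStm

set_option autoImplicit false
open Classical Finset

namespace Pool.Agent.H61.HW

open Pool.Agent.H21.HV (nb Prp TotLab)
open Pool.Agent.H39.HW (sm Av ln blk lab Dat Sch Reg S_GRA S_SCH S_FIN)
open Pool.Agent.H65.HW

theorem om_pos {D p : ℕ} {s : Dat} (h : Sch D p s) : 0 < s.ω := by
  have h1 := h.small
  have h2 : 0 < (10 : ℝ) ^ 4 * (s.m + 2) * (s.B + 2) * (s.H + 2) * s.δ := by
    have := h.dpos
    positivity
  have h3 : 0 < s.ρ1 * s.ω := lt_of_lt_of_le h2 h1
  by_contra hc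
  push Not at hc
  have := mul_nonpos_of_nonneg_of_nonpos h.rho1.le hc
  linarith

theorem R_sub {D p : ℕ} {s : Dat} (h : Sch D p s) : s.R.card ≤ s.B := by
  have h1 : s.R ⊆ range s.B := by
    intro a ha
    have := h.hR a ha
    exact mem_range.2 (by omega)
  have h2 := card_le_card h1
  rwa [card_range] at h2

theorem t_CEL (hP : S_PRT) : S_CEL := by
  intro B0 m0 δ hδ
  have hex : ∀ n : ℕ, ∃ D0 : ℕ, 1 ≤ n → ∀ D : ℕ, D0 ≤ D → ∀ q : Fin n → ℝ,
    (∀ i, 0 ≤ q i) → ∑ i, q i = 1 → ∀ (V : Type) [Fintype V] (G : SimpleGraph V),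
    (∀ v, nb G univ v = D) →
    ∃ cl : V → Fin n, ∀ v i, |(nb G (univ.filter (fun u => cl u = i)) v : ℝ) - q i * D| ≤ δ * D := by
    intro n
    by_cases hn : 1 ≤ n
    · obtain ⟨D0, h⟩ := hP n δ hn hδ
      exact ⟨D0, fun _ => h⟩
    · exact ⟨0, fun h => absurd h hn⟩
  choose f hf using hex
  obtain ⟨D1, hD1⟩ := exists_nat_ge (((100 : ℝ) * (m0 + 2) * (B0 + 2) * (m0 + 2)) / δ)
  refine ⟨max D1 ((range (B0 + m0 + 1)).sup f), ?_⟩
  intro D hD p s hs hB hm hH hd V _ G hG
  have hDf : f (s.R.card + s.m) ≤ D := by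
    have h1 : f (s.R.card + s.m) ≤ (range (B0 + m0 + 1)).sup f := by
      apply Finset.le_sup (f := f)
      have := R_sub hs
      exact mem_range.2 (by omega)
    exact h1.trans ((le_max_right _ _).trans hD)
  have hn1 : 1 ≤ s.R.card + s.m := by
    have := hs.hm
    omega
  have hω := om_pos hs
  have hμ : 0 < s.μ := lt_of_lt_of_le hω hs.opos
  let q0 : Fin s.R.card ⊕ Fin s.m → ℝ := Sum.elim (fun _ => s.μ) (fun _ => s.ω)
  let v0 : Fin s.R.card ⊕ Fin s.m → ℕ :=
    Sum.elim (fun j => ((s.R.equivFin.symm j : s.R) : ℕ)) (fun y => s.B + y)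
  obtain ⟨c, hc⟩ := hf (s.R.card + s.m) hn1 D hDf (fun i => q0 (finSumFinEquiv.symm i))
    (by
      intro i
      rcases finSumFinEquiv.symm i with j | j
      · exact hμ.le
      · exact hω.le)
    (by
      rw [Equiv.sum_comp finSumFinEquiv.symm q0, Fintype.sum_sum_type]
      simp only [q0, Sum.elim_inl, Sum.elim_inr, Finset.sum_const, Finset.card_univ,
        Fintype.card_fin, nsmul_eq_mul]
      exact hs.tot) V G hG
  refine ⟨fun v => v0 (finSumFinEquiv.symm (c v)), hs, hG, ?_, ?_, ?_, ?_⟩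
  · intro v
    rcases finSumFinEquiv.symm (c v) with j | j
    · left
      exact (s.R.equivFin.symm j).2
    · right
      simp only [v0, Sum.elim_inr]
      have := j.2
      omega
  · intro v a ha
    have e : cell (fun v => v0 (finSumFinEquiv.symm (c v))) a =
        univ.filter (fun u => c u = finSumFinEquiv (Sum.inl (s.R.equivFin ⟨a, ha⟩))) := by
      unfold cell
      apply filter_congr
      intro u _
      constructor
      · intro h
        rw [← Equiv.symm_apply_eq]
        rcases hj : finSumFinEquiv.symm (c u) with j | j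
        · simp only [v0, hj, Sum.elim_inl] at h
          have h2 : s.R.equivFin.symm j = ⟨a, ha⟩ := Subtype.ext h
          rw [← h2, Equiv.apply_symm_apply]
        · simp only [v0, hj, Sum.elim_inr] at h
          have := hs.hR a ha
          omega
      · intro h
        simp only [h, Equiv.symm_apply_apply, v0, Sum.elim_inl]
    rw [e]
    have h1 := hc v (finSumFinEquiv (Sum.inl (s.R.equivFin ⟨a, ha⟩)))
    simp only [Equiv.symm_apply_apply, q0, Sum.elim_inl] at h1
    rw [hd]
    exact h1
  · intro v y hy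
    have e : cell (fun v => v0 (finSumFinEquiv.symm (c v))) (s.B + y) =
        univ.filter (fun u => c u = finSumFinEquiv (Sum.inr ⟨y, hy⟩)) := by
      unfold cell
      apply filter_congr
      intro u _
      constructor
      · intro h
        rw [← Equiv.symm_apply_eq]
        rcases hj : finSumFinEquiv.symm (c u) with j | j
        · simp only [v0, hj, Sum.elim_inl] at h
          have := hs.hR _ (s.R.equivFin.symm j).2
          omega
        · simp only [v0, hj, Sum.elim_inr] at h
          have h2 : j = ⟨y, hy⟩ := Fin.ext (by simpa using h)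
          rw [h2]
      · intro h
        simp only [h, Equiv.symm_apply_apply, v0, Sum.elim_inr]
    rw [e]
    have h1 := hc v (finSumFinEquiv (Sum.inr ⟨y, hy⟩))
    simp only [Equiv.symm_apply_apply, q0, Sum.elim_inr] at h1
    rw [hd]
    exact h1
  · have h1 : (D1 : ℝ) ≤ D := by
      exact_mod_cast (le_max_left _ _).trans hD
    have h2 : ((100 : ℝ) * (m0 + 2) * (B0 + 2) * (m0 + 2)) ≤ δ * D := by
      have h3 := hD1.trans h1
      rw [div_le_iff₀ hδ] at h3
      linarith
    rw [hd]
    refine le_trans ?_ h2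
    have e1 : (s.m : ℝ) ≤ m0 := by exact_mod_cast hm
    have e2 : (s.B : ℝ) ≤ B0 := by exact_mod_cast hB
    have e3 : (s.H : ℝ) ≤ m0 := by exact_mod_cast hH
    gcongr

end Pool.Agent.H61.HW
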