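import Pool.Agent.H65.HW.Tools
import Pool.Graph.R_seed8.H238R2.HY.Struct

set_option autoImplicit false
open Classical Finset

namespace Pool.Agent.H61.HW

open Pool.Agent.H21.HV Pool.Agent.H65.HW

theorem nb_eq {V : Type} [Fintype V] (Γ : SimpleGraph V) (v : V) :
    nb Γ univ v = Γ.degree v := by
  unfold nb
  rw [← SimpleGraph.card_neighborFinset_eq_degree]
  congr 1
  ext u
  simp

theorem t_VIZ : S_VIZ := by
  intro V _ Γ d h
  obtain ⟨c, h1, h2, h3⟩ := Pool.Agent.H238R2.HY.vizing Γ d (fun v => by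
    have := h v
    rw [nb_eq] at this
    exact this)
  exact ⟨c, h1, fun u v huv => Nat.lt_succ_of_le (h2 u v huv), h3⟩

end Pool.Agent.H61.HW
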