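import Pool.Agent.H65.HW.Tools
import Pool.Graph.R_pool_sql_team_8f841797.H25.Kernel

set_option autoImplicit false
open Classical Finset

namespace Pool.Agent.H61.HW

open Pool.Agent.H21.HV Pool.Agent.H65.HW Pool.Agent.H25.Kernel

theorem t_BKW : S_BKW := by
  intro V _ Γ P Q L hB hL hd
  obtain ⟨hdis, hadj⟩ := hB
  set S : Finset (V × V) := (P ×ˢ Q).filter (fun e => Γ.Adj e.1 e.2) with hS
  have memS : ∀ e : V × V, e ∈ S ↔ (e.1 ∈ P ∧ e.2 ∈ Q) ∧ Γ.Adj e.1 e.2 := by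
    intro e
    rw [hS, mem_filter, mem_product]
  have dgA : ∀ z : V, z ∈ P → dg Prod.fst S z ≤ nb Γ univ z := by
    intro z _
    unfold dg nb
    apply card_le_card_of_injOn (fun e => e.2)
    · intro e he
      obtain ⟨h1, h2⟩ := mem_filter.1 he
      have h3 := (memS e).1 h1
      apply mem_coe.2
      exact mem_filter.2 ⟨mem_univ _, h2 ▸ h3.2⟩
    · intro e he e' he' h
      obtain ⟨h1, h2⟩ := mem_filter.1 (mem_coe.1 he)
      obtain ⟨h1', h2'⟩ := mem_filter.1 (mem_coe.1 he')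
      exact Prod.ext (h2.trans h2'.symm) h
  have dgB : ∀ u : V, u ∈ Q → dg Prod.snd S u ≤ nb Γ univ u := by
    intro u _
    unfold dg nb
    apply card_le_card_of_injOn (fun e => e.1)
    · intro e he
      obtain ⟨h1, h2⟩ := mem_filter.1 he
      have h3 := (memS e).1 h1
      apply mem_coe.2
      exact mem_filter.2 ⟨mem_univ _, h2 ▸ h3.2.symm⟩
    · intro e he e' he' h
      obtain ⟨h1, h2⟩ := mem_filter.1 (mem_coe.1 he)
      obtain ⟨h1', h2'⟩ := mem_filter.1 (mem_coe.1 he')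
      exact Prod.ext h (h2.trans h2'.symm)
  obtain ⟨ra, rb, hloc, hout⟩ := bkw (Prod.fst) (Prod.snd) S
  obtain ⟨c, hc1, hc2⟩ := colour (C := ℕ) Prod.fst Prod.snd ra rb S hloc (fun e => L e.1) (by
    intro e he
    refine lt_of_lt_of_le ?_ (hL e.1 ((memS e).1 he).1.1)
    refine lt_of_lt_of_le ?_ (le_refl (nb Γ univ e.1))
    have h1 := hout e he
    have h2 := dgA e.1 ((memS e).1 he).1.1
    have h3 := dgB e.2 ((memS e).1 he).1.2
    have h4 := hd e.1 ((memS e).1 he).1.1 e.2 ((memS e).1 he).1.2 ((memS e).1 he).2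
    have h5 : max (dg Prod.fst S e.1) (dg Prod.snd S e.2) ≤ nb Γ univ e.1 :=
      max_le h2 (h3.trans h4)
    convert lt_of_lt_of_le h1 h5)
  have cases : ∀ u v, Γ.Adj u v → ((u, v) ∈ S ∧ (v, u) ∉ S) ∨ ((u, v) ∉ S ∧ (v, u) ∈ S) := by
    intro u v h
    have hd' := Finset.disjoint_left.1 hdis
    rcases hadj u v h with ⟨h1, h2⟩ | ⟨h1, h2⟩
    · exact Or.inl ⟨(memS _).2 ⟨⟨h1, h2⟩, h⟩, fun h' => hd' h1 ((memS _).1 h').1.2⟩
    · exact Or.inr ⟨fun h' => hd' ((memS _).1 h').1.1 h1, (memS _).2 ⟨⟨h2, h1⟩, h.symm⟩⟩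
  let c' : V → V → ℕ := fun u v => if (u, v) ∈ S then c (u, v) else
    if (v, u) ∈ S then c (v, u) else 0
  have hno : ∀ u v, (u, v) ∈ S → (v, u) ∉ S := by
    intro u v h h'
    exact Finset.disjoint_left.1 hdis ((memS _).1 h).1.1 ((memS _).1 h').1.2
  refine ⟨c', ?_, ?_, ?_⟩
  · intro u v
    show (if (u, v) ∈ S then c (u, v) else if (v, u) ∈ S then c (v, u) else 0) =
      (if (v, u) ∈ S then c (v, u) else if (u, v) ∈ S then c (u, v) else 0)
    by_cases h1 : (u, v) ∈ S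
    · have h2 := hno u v h1
      simp [h1, h2]
    · by_cases h2 : (v, u) ∈ S <;> simp [h1, h2]
  · intro u v w huv huw hvw
    have hd' := Finset.disjoint_left.1 hdis
    rcases cases u v huv with ⟨h1, h1'⟩ | ⟨h1, h1'⟩ <;> rcases cases u w huw with ⟨h2, h2'⟩ | ⟨h2, h2'⟩
    · have e1 : c' u v = c (u, v) := by simp [c', h1]
      have e2 : c' u w = c (u, w) := by simp [c', h2]
      rw [e1, e2]
      exact hc2 _ h1 _ h2 (fun h => hvw (Prod.mk.inj h).2) (Or.inl rfl)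
    · exact (hd' ((memS _).1 h1).1.1 ((memS _).1 h2').1.2).elim
    · exact (hd' ((memS _).1 h2).1.1 ((memS _).1 h1').1.2).elim
    · have e1 : c' u v = c (v, u) := by simp [c', h1, h1']
      have e2 : c' u w = c (w, u) := by simp [c', h2, h2']
      rw [e1, e2]
      exact hc2 _ h1' _ h2' (fun h => hvw (Prod.mk.inj h).1) (Or.inr rfl)
  · intro z hz u h
    rcases cases z u h with ⟨h1, h1'⟩ | ⟨h1, h1'⟩
    · have e1 : c' z u = c (z, u) := by simp [c', h1]
      rw [e1]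
      exact hc1 _ h1
    · exact (Finset.disjoint_left.1 hdis hz ((memS _).1 h1').1.2).elim

end Pool.Agent.H61.HW
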